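import Mathlib
import Pool.Agent.H33.GdDefs
import Pool.Agent.H33.Gd1

namespace Pool.Agent.Results.MP_c4e2dd_an.Q1
open MeasureTheory Filter Topology Metric Real Pool.Agent.H33.Gd

noncomputable def Gw (w : ℂ) : ℂ := Complex.I / 2 * (w - 1 - Complex.I * (π / 2 : ℝ)) ^ 2
noncomputable def th (z : ℂ) : ℂ := Complex.exp (Gw (lw z))
noncomputable def hh (N : ℝ) (z : ℂ) : ℂ := Complex.exp (-Complex.I * N * lw z)

lemma Gw_re (w : ℂ) : (Gw w).re = -((1 - w.re) * (π / 2 - w.im)) := by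
  simp only [Gw, sq, Complex.mul_re, Complex.mul_im, Complex.div_ofNat_re, Complex.div_ofNat_im,
    Complex.I_re, Complex.I_im, Complex.sub_re, Complex.sub_im, Complex.one_re, Complex.one_im,
    Complex.ofReal_re, Complex.ofReal_im]
  ring

lemma norm_th (z : ℂ) : ‖th z‖ = Real.exp (-((1 - (lw z).re) * (π / 2 - (lw z).im))) := by
  rw [th, Complex.norm_exp, Gw_re]

lemma norm_hh (N : ℝ) (z : ℂ) : ‖hh N z‖ = Real.exp (N * (lw z).im) := by
  rw [hh, Complex.norm_exp]; congr 1; simp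

lemma Gw_diff : Differentiable ℂ Gw := by unfold Gw; fun_prop

lemma bv_th : BV th th := bv_of (fun w => Complex.exp (Gw w)) Gw_diff.cexp 1 fun z hz h1 => by
  show ‖th z‖ ≤ 1
  rw [norm_th, Real.exp_le_one_iff, neg_nonpos]
  exact mul_nonneg (by linarith [lw_re_le hz h1]) (by linarith [(abs_lt.1 (lw_im hz h1)).2])

lemma bv_hh (N : ℝ) : BV (hh N) (hh N) :=
  bv_of (fun w => Complex.exp (-Complex.I * N * w)) (by fun_prop) (Real.exp (|N| * (π / 2)))
    fun z hz h1 => by
      show ‖hh N z‖ ≤ _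
      rw [norm_hh, Real.exp_le_exp]
      refine (le_abs_self _).trans ?_
      rw [abs_mul]
      exact mul_le_mul_of_nonneg_left (lw_im hz h1).le (abs_nonneg _)

lemma meas_lw : Measurable fun t => lw (circleMap 0 1 t) :=
  Complex.measurable_log.comp (by fun_prop)

lemma int_b : IntervalIntegrable (fun t => (2 - Real.log ‖1 - circleMap 0 1 t‖) * π) volume 0 (2 * π) := by
  have : CircleIntegrable (fun z : ℂ => Real.log ‖1 - z‖) 0 1 :=
    MeromorphicOn.circleIntegrable_log_norm (f := fun z => 1 - z) fun z _ => by fun_prop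
  exact (intervalIntegrable_const.sub this).mul_const _

lemma U_bd {r : ℝ} (h0 : 0 < r) (h1 : r ≤ 1) {z : ℂ} (hz : ‖z‖ = 1) (hz1 : z ≠ 1) :
    ‖(Gw (lw (r * z))).re‖ ≤ (2 - Real.log ‖1 - z‖) * π := by
  have n1 : ‖(r : ℂ) * z‖ = r := by rw [norm_mul, hz, Complex.norm_real, Real.norm_of_nonneg h0.le, mul_one]
  have k1 : ‖1 - z‖ ≤ 2 * ‖1 - r * z‖ := by
    have a := norm_sub_norm_le (1 : ℂ) (r * z)
    have b := norm_sub_le_norm_sub_add_norm_sub (1 : ℂ) (r * z) z
    have c : ‖r * z - z‖ = 1 - r := by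
      rw [norm_sub_rev, show z - r * z = ((1 - r : ℝ) : ℂ) * z by push_cast; ring, norm_mul, hz,
        Complex.norm_real, Real.norm_of_nonneg (by linarith), mul_one]
    rw [n1, norm_one] at a
    linarith
  have p1 : 0 < ‖1 - z‖ := norm_pos_iff.2 (sub_ne_zero.2 hz1.symm)
  have ne : (r : ℂ) * z ≠ 1 := fun h => by rw [h, sub_self, norm_zero] at k1; linarith
  have a := lw_re_le (n1.le.trans h1) ne
  have b := abs_lt.1 (lw_im (n1.le.trans h1) ne)
  have c : Real.log ‖1 - z‖ ≤ 1 + (lw (r * z)).re := by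
    rw [lw_re]
    have h2 := Real.log_le_log p1 k1
    rw [Real.log_mul two_ne_zero (by linarith)] at h2
    have := Real.log_le_sub_one_of_pos (show (0 : ℝ) < 2 by norm_num)
    linarith
  rw [Gw_re, norm_neg, Real.norm_of_nonneg (mul_nonneg (by linarith) (by linarith))]
  exact mul_le_mul (by linarith) (by linarith) (by linarith) (by linarith)

lemma log_th (z : ℂ) : Real.log ‖th z‖ = (Gw (lw z)).re := by
  rw [th, Complex.norm_exp, Real.log_exp]

lemma outer : BddOuter th := by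
  have ne : ∀ z ∈ ball (0 : ℂ) 1, z ≠ 1 := fun z hz h => by simp [h] at hz
  have hd : DifferentiableOn ℂ (fun z => Gw (lw z)) (ball 0 1) := fun z hz =>
    ((Gw_diff _).comp z (lw_diff (mem_ball_zero_iff.1 hz).le (ne z hz))).differentiableWithinAt
  have hi : CircleIntegrable (fun ζ => Real.log ‖th ζ‖) 0 1 := by
    simp only [log_th]
    refine int_b.mono_fun' (Complex.measurable_re.comp
      (Gw_diff.continuous.measurable.comp meas_lw)).aestronglyMeasurable ?_
    rw [Set.uIoc_of_le two_pi_nn]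
    filter_upwards [ae_ne_one] with t ht
    simpa using U_bd one_pos le_rfl (z := circleMap 0 1 t) (by simp) ht
  have hi' : CircleIntegrable (fun ζ => ((Real.log ‖th ζ‖ : ℝ) : ℂ)) 0 1 := by
    simp only [CircleIntegrable, intervalIntegrable_iff] at hi ⊢
    exact Complex.ofRealCLM.integrable_comp hi
  have ha := analyticOnNhd_circleAverage_herglotzRieszKernel_smul hi'
  obtain ⟨c, hc⟩ := (ha.sub (hd.analyticOnNhd isOpen_ball)).eq_re_add_const_mul_I_of_re_eq_const
    (c₀ := 0) (fun w hw => by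
      have h1 := poisson_lim Complex.reCLM _ hd (fun t => (Gw (lw (circleMap 0 1 t))).re) _ int_b
        (fun r h0 h1 => ae_ne_one.mono fun t ht => U_bd h0 h1.le (by simp) ht)
        (ae_ne_one.mono fun t ht => by
          have h2 : ContinuousAt (fun r : ℝ => lw (r * circleMap 0 1 t)) 1 := by
            refine ContinuousAt.comp (g := lw) (f := fun r : ℝ => (r : ℂ) * circleMap 0 1 t) ?_
              (by fun_prop)
            simpa using (lw_diff (by simp) ht).continuousAt
          have := (Complex.continuous_re.comp Gw_diff.continuous).continuousAt.comp h2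
          simpa [Function.comp_def] using this.tendsto.mono_left nhdsWithin_le_nhds) hw
      simp only [Pi.sub_apply, Complex.sub_re]
      rw [re_circleAverage_herglotzRieszKernel_smul hi hw, ← poissonKernel_eq_re_herglotzRieszKernel,
        circleAverage_def, sub_eq_zero]
      simp only [Pi.smul_apply', log_th]
      exact h1.symm) isOpen_ball (isConnected_ball one_pos)
  refine ⟨th, bv_th, ⟨0, by simp, Complex.exp_ne_zero _⟩, hi, Complex.exp (-c * Complex.I), ?_,
    fun z hz => ?_⟩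
  · rw [Complex.norm_exp]; simp
  · have := hc z hz
    simp only [Pi.sub_apply, herglotzRieszKernel_def, sub_zero, smul_eq_mul] at this
    rw [← Complex.exp_add, th]
    congr 1
    push_cast at this
    linear_combination -this

lemma cos_half {y : ℝ} (h : |y| ≤ 1) : 1 / 2 ≤ Real.cos y := by
  have := Real.one_sub_sq_div_two_le_cos (x := y)
  have h2 : y ^ 2 ≤ 1 := by rw [← sq_abs]; nlinarith [abs_nonneg y]
  linarith

lemma U_le {z : ℂ} (hz : ‖z‖ = 1) (h1 : z ≠ 1) (hy : -1 < (lw z).im) :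
    (1 - (lw z).re) * (π / 2 - (lw z).im) ≤ 8 := by
  have b := abs_lt.1 (lw_im hz.le h1)
  have c := circ_cos hz h1
  have p1 : 0 < ‖1 - z‖ := norm_pos_iff.2 (sub_ne_zero.2 h1.symm)
  have pi4 := Real.pi_le_four
  set y := (lw z).im
  rw [lw_re]
  rcases le_total y 0 with h | h
  · have := cos_half (y := y) (abs_le.2 ⟨by linarith, by linarith⟩)
    have h2 : 0 ≤ Real.log ‖1 - z‖ := Real.log_nonneg (by linarith)
    nlinarith
  · have h2 : 2 / π * (π / 2 - y) ≤ Real.cos y := by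
      rw [← Real.sin_pi_div_two_sub]
      exact Real.mul_le_sin (by linarith) (by linarith)
    have h3 := Real.one_sub_inv_le_log_of_pos p1
    have h4 : ‖1 - z‖⁻¹ * (π / 2 - y) ≤ 1 := by
      rw [inv_mul_le_iff₀ p1, c, mul_one]
      have h5 : 1 / 2 * (π / 2 - y) ≤ 2 / π * (π / 2 - y) := by
        refine mul_le_mul_of_nonneg_right ?_ (by linarith)
        rw [div_le_div_iff₀ two_pos Real.pi_pos]; linarith
      linarith
    nlinarith

lemma psi_le {z : ℂ} (hz : ‖z‖ = 1) (h1 : z ≠ 1) (N : ℝ) (hN : 0 ≤ N) :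
    ‖th z‖ * ‖hh (-N) z‖ ≤ Real.exp (-N) + Real.exp (2 * N) * ‖1 - z‖ ^ 2 := by
  have a := lw_re_le hz.le h1
  have b := abs_lt.1 (lw_im hz.le h1)
  have c := circ_cos hz h1
  have pi4 := Real.pi_le_four
  have pi3 := Real.pi_gt_three
  rw [norm_th, norm_hh, ← Real.exp_add]
  have e := exp_re h1
  set y := (lw z).im
  set x := (lw z).re
  have u0 : 0 ≤ (1 - x) * (π / 2 - y) := mul_nonneg (by linarith) (by linarith)
  have q1 := Real.exp_pos (-N)
  have q2 : 0 ≤ Real.exp (2 * N) * ‖1 - z‖ ^ 2 := by positivity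
  rcases le_total 1 y with h | h
  · have : Real.exp (-((1 - x) * (π / 2 - y)) + -N * y) ≤ Real.exp (-N) :=
      Real.exp_le_exp.2 (by nlinarith)
    linarith
  have : Real.exp (-((1 - x) * (π / 2 - y)) + -N * y) ≤ Real.exp (2 * N) * ‖1 - z‖ ^ 2 := by
    rw [← e, sq, ← Real.exp_add, ← Real.exp_add, Real.exp_le_exp]
    have ny : -N * y ≤ 2 * N := by nlinarith
    rcases le_total y (-1) with h' | h'
    · nlinarith
    · have h2 := cos_half (y := y) (abs_le.2 ⟨h', h⟩)
      have h3 : 0 ≤ x := by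
        rw [← Real.one_le_exp_iff, e]; linarith
      linarith
  linarith

noncomputable def ff (z : ℂ) : ℂ := if (lw z).im ≤ -1 then hh 1 z else 0
noncomputable def gg (z : ℂ) : ℂ := if (lw z).im ≤ -1 then 0 else -hh 1 z / th z

lemma ff_eq (z : ℂ) : ff z = hh 1 z + th z * gg z := by
  unfold ff gg
  have : th z ≠ 0 := Complex.exp_ne_zero _
  split_ifs
  · simp
  · field_simp; ring

lemma gg_bd {z : ℂ} (hz : ‖z‖ = 1) (h1 : z ≠ 1) : ‖gg z‖ ≤ Real.exp 10 := by
  unfold gg
  split_ifs with h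
  · simp [Real.exp_nonneg]
  · rw [norm_div, norm_neg, norm_hh, norm_th, ← Real.exp_sub, Real.exp_le_exp]
    have := U_le hz h1 (not_le.1 h)
    have b := abs_lt.1 (lw_im hz.le h1)
    linarith [Real.pi_le_four]

lemma ff_bd (z : ℂ) : ‖ff z‖ ≤ Real.exp (-1) := by
  unfold ff
  split_ifs with h
  · rw [norm_hh, Real.exp_le_exp]; linarith
  · simp [Real.exp_nonneg]

lemma linf_gg : Linf gg := by
  have hm : Measurable fun t => gg (circleMap 0 1 t) := by
    unfold gg hh th
    refine Measurable.ite (measurableSet_le (Complex.measurable_im.comp meas_lw) measurable_const)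
      measurable_const (Measurable.div (Measurable.neg ?_) ?_)
    · exact Complex.measurable_exp.comp (meas_lw.const_mul _)
    · exact Complex.measurable_exp.comp (Gw_diff.continuous.measurable.comp meas_lw)
  exact memLp_top_of_bound hm.aestronglyMeasurable _ (ae_ne_one.mono fun t ht => gg_bd (by simp) ht)

theorem result : ∃ θ : ℂ → ℂ, BddOuter θ ∧ ∃ f : ℂ → ℂ, InX θ f ∧
    eLpNorm (fun t => f (circleMap 0 1 t)) ⊤ arcM < 1 ∧ ¬ InX θ (fun z => 1 / (1 - f z)) := by
  have e1 : Real.exp (-1) < 1 := Real.exp_lt_one_iff.2 (by norm_num)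
  refine ⟨th, outer, ff, ⟨hh 1, gg, ⟨_, bv_hh 1⟩, linf_gg, Eventually.of_forall fun t => ff_eq _⟩, ?_, ?_⟩
  · rw [eLpNorm_exponent_top]
    exact (eLpNormEssSup_le_of_ae_bound (Eventually.of_forall fun t => ff_bd _)).trans_lt
      (ENNReal.ofReal_lt_one.2 e1)
  rintro ⟨h', g', ⟨H', hH⟩, hg', he⟩
  obtain ⟨M1, hM1⟩ := hH.ae_bdd
  obtain ⟨M2, hM2⟩ : ∃ M, ∀ᵐ t ∂arcM, ‖g' (circleMap 0 1 t)‖ ≤ M := by
    obtain ⟨C, hC⟩ := eLpNormEssSup_lt_top_iff_isBoundedUnder.1 (by simpa using hg'.2)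
    exact ⟨C, hC⟩
  set C : ℝ := Real.exp 10 * |M1| + 2 * |M2| with hC
  have C0 : 0 ≤ C := by positivity
  have hk : ∀ᵐ t ∂arcM, ‖(1 - hh 1 (circleMap 0 1 t)) * h' (circleMap 0 1 t) - 1‖ ≤
      C * ‖th (circleMap 0 1 t)‖ := by
    filter_upwards [ae_ne_one, hM1, hM2, he] with t h1 h2 h3 h4
    set z := circleMap 0 1 t
    have f1 := ff_bd z
    have f2 : 1 - ff z ≠ 0 := fun h => by
      rw [← sub_eq_zero.1 h, norm_one] at f1; linarith
    rw [div_eq_iff f2] at h4
    have h5 : (1 - hh 1 z) * h' z - 1 = (gg z * h' z - (1 - ff z) * g' z) * th z := by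
      have := ff_eq z
      linear_combination (-1) * h4 + h' z * this
    rw [h5, norm_mul]
    refine mul_le_mul_of_nonneg_right ((norm_sub_le _ _).trans (add_le_add ?_ ?_)) (norm_nonneg _)
    · rw [norm_mul]
      exact mul_le_mul (gg_bd (by simp [z]) h1) (h2.trans (le_abs_self _)) (norm_nonneg _) (by positivity)
    · rw [norm_mul]
      refine mul_le_mul ((norm_sub_le _ _).trans ?_) (h3.trans (le_abs_self _)) (norm_nonneg _) two_pos.le
      rw [norm_one]; linarith
  obtain ⟨N, hN1, hN0⟩ := (((Real.tendsto_exp_neg_atTop_nhds_zero.const_mul C).eventually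
    (gt_mem_nhds (show C * 0 < 1 / 2 by simp))).and (eventually_ge_atTop 0)).exists
  have hlim : Tendsto (fun n : ℕ => Real.exp (-(2 * π * n))) atTop (𝓝 0) :=
    Real.tendsto_exp_neg_atTop_nhds_zero.comp
      (tendsto_natCast_atTop_atTop.const_mul_atTop (by positivity))
  obtain ⟨n, hn1, hn2⟩ := (((hlim.const_mul (8 * C * Real.exp (2 * N))).eventually
    (gt_mem_nhds (show 8 * C * Real.exp (2 * N) * 0 < 1 / 2 by simp))).and
    (hlim.eventually (gt_mem_nhds one_pos))).exists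
  set s := Real.exp (-(2 * π * n)) with hs
  have s0 : 0 < s := Real.exp_pos _
  have hw : ((1 - s : ℝ) : ℂ) ∈ ball (0 : ℂ) 1 := by
    rw [mem_ball_zero_iff, Complex.norm_real, Real.norm_of_nonneg (by linarith)]; linarith
  have lwv : lw ((1 - s : ℝ) : ℂ) = ((-(2 * π * n) : ℝ) : ℂ) := by
    rw [lw, show (1 : ℂ) - ((1 - s : ℝ) : ℂ) = (s : ℝ) by push_cast; ring, ← Complex.ofReal_log s0.le,
      hs, Real.log_exp]
  have v1 : hh 1 ((1 - s : ℝ) : ℂ) = 1 := by
    rw [hh, lwv, ← Complex.exp_nat_mul_two_pi_mul_I n]; congr 1; push_cast; ring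
  have v2 : ‖hh (-N) ((1 - s : ℝ) : ℂ)‖ = 1 := by
    rw [norm_hh, lwv, Complex.ofReal_im, mul_zero, Real.exp_zero]
  have key := bv_bound (((((BV.const 1).sub (bv_hh 1)).mul hH).sub (BV.const 1)).mul (bv_hh (-N))) hw
    (C * Real.exp (-N)) (8 * C * Real.exp (2 * N) * s) (by
      filter_upwards [ae_ne_one, hk] with t h1 h2
      have p0 := pk_nonneg hw t
      have nz : ‖circleMap 0 1 t‖ = 1 := by simp
      have h3 := psi_le nz h1 N hN0
      have h4 : poissonKernel 0 ((1 - s : ℝ) : ℂ) (circleMap 0 1 t) * ‖1 - circleMap 0 1 t‖ ^ 2 ≤ 8 * s := by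
        set z := circleMap 0 1 t
        have a := norm_sub_norm_le z ((1 - s : ℝ) : ℂ)
        have b := norm_sub_le_norm_sub_add_norm_sub (1 : ℂ) ((1 - s : ℝ) : ℂ) z
        rw [show (1 : ℂ) - ((1 - s : ℝ) : ℂ) = (s : ℝ) by push_cast; ring, norm_sub_rev ((1 - s : ℝ) : ℂ) z,
          Complex.norm_real, Real.norm_of_nonneg s0.le] at b
        have c : ‖((1 - s : ℝ) : ℂ)‖ = 1 - s := by
          rw [Complex.norm_real, Real.norm_of_nonneg (by linarith)]
        rw [nz, c] at a
        simp only [poissonKernel_def, sub_zero, nz, c]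
        have d : 0 < ‖z - ((1 - s : ℝ) : ℂ)‖ := by linarith
        rw [div_mul_eq_mul_div, div_le_iff₀ (by positivity)]
        have e : ‖1 - z‖ ^ 2 ≤ (2 * ‖z - ((1 - s : ℝ) : ℂ)‖) ^ 2 := by gcongr; linarith
        have f : 1 ^ 2 - (1 - s) ^ 2 ≤ 2 * s := by nlinarith
        calc _ ≤ (2 * s) * (2 * ‖z - ((1 - s : ℝ) : ℂ)‖) ^ 2 := by gcongr
          _ = _ := by ring
      rw [norm_mul]
      set P := poissonKernel 0 ((1 - s : ℝ) : ℂ) (circleMap 0 1 t)
      calc _ ≤ P * (C * ‖th (circleMap 0 1 t)‖ * ‖hh (-N) (circleMap 0 1 t)‖) := by gcongr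
        _ = P * C * (‖th (circleMap 0 1 t)‖ * ‖hh (-N) (circleMap 0 1 t)‖) := by ring
        _ ≤ P * C * (Real.exp (-N) + Real.exp (2 * N) * ‖1 - circleMap 0 1 t‖ ^ 2) := by gcongr
        _ = C * Real.exp (-N) * P + C * Real.exp (2 * N) * (P * ‖1 - circleMap 0 1 t‖ ^ 2) := by ring
        _ ≤ C * Real.exp (-N) * P + C * Real.exp (2 * N) * (8 * s) := by gcongr
        _ = _ := by ring)
  simp only [v1, sub_self, zero_mul, zero_sub, norm_mul, v2, norm_neg, norm_one] at key
  linarith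

end Pool.Agent.Results.MP_c4e2dd_an.Q1
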